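import Mathlib

/-! # Nineteen integral vertices of the span-colouring graph which are not 3-colourable -/

set_option autoImplicit false

namespace Pool.Agent.Q130.SP

/-- certificates -/
inductive Tr where
  | leaf (i j : ℕ) : Tr
  | node (v : ℕ) (a b c : Tr) : Tr

/-- the pairs (vector, covector) -/
def W : List ((ℤ × ℤ × ℤ) × (ℤ × ℤ × ℤ)) :=
  [((0, 0, 1), (0, 0, 1)),
   ((0, 0, 1), (1, 0, -1)),
   ((0, 1, 0), (0, 1, -1)),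
   ((0, 1, 0), (0, 1, 0)),
   ((0, 1, 0), (1, -1, 0)),
   ((0, 1, 1), (1, -1, 0)),
   ((1, 0, 0), (1, -1, -1)),
   ((1, 0, 0), (1, -1, 0)),
   ((1, 0, 0), (1, 0, -1)),
   ((1, 0, 0), (1, 0, 0)),
   ((1, 0, 1), (0, 0, 1)),
   ((1, 0, 1), (0, 1, -1)),
   ((1, 1, 0), (0, 1, -1)),
   ((1, 1, 0), (1, 0, -1)),
   ((1, 1, 0), (1, 0, 0)),
   ((1, 1, 1), (0, 0, 1)),
   ((1, 1, 1), (0, 1, 0)),
   ((1, 1, 1), (1, -1, 1)),
   ((1, 1, 1), (1, 0, 0))]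

def dot (u v : ℤ × ℤ × ℤ) : ℤ := v.1 * u.1 + v.2.1 * u.2.1 + v.2.2 * u.2.2

def Wf (i : ℕ) : (ℤ × ℤ × ℤ) × (ℤ × ℤ × ℤ) := W.getD i ((1, 0, 0), (1, 0, 0))

def E (i j : ℕ) : Bool :=
  decide (i < 19) && decide (j < 19) && decide (dot (Wf i).1 (Wf j).2 = 0) &&
    decide (dot (Wf j).1 (Wf i).2 = 0)

def get (i : ℕ) : List (ℕ × ℕ) → ℕ
  | [] => 3
  | p :: s => if p.1 = i then p.2 else get i s

def chk : Tr → List (ℕ × ℕ) → Bool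
  | .leaf i j, s => E i j && decide (get i s < 3) && decide (get i s = get j s)
  | .node v a b c, s => chk a ((v, 0) :: s) && chk b ((v, 1) :: s) && chk c ((v, 2) :: s)

lemma get_sound (c : ℕ → ℕ) (i : ℕ) : ∀ s : List (ℕ × ℕ), (∀ p ∈ s, c p.1 = p.2) → get i s < 3 →
    c i = get i s := by
  intro s
  induction s with
  | nil => intro _ h; simp [get] at h
  | cons p s ih =>
    intro hs h
    unfold get at h ⊢
    split_ifs at h ⊢ with h1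
    · rw [← h1]
      exact hs p (by simp)
    · exact ih (fun q hq => hs q (by simp [hq])) h

lemma chk_sound (c : ℕ → ℕ) (hc : ∀ v, c v < 3) : ∀ (T : Tr) (s : List (ℕ × ℕ)),
    (∀ p ∈ s, c p.1 = p.2) → chk T s = true → ∃ i j, E i j = true ∧ c i = c j := by
  intro T
  induction T with
  | leaf i j =>
    intro s hs h
    simp only [chk, Bool.and_eq_true, decide_eq_true_eq] at h
    obtain ⟨⟨h1, h2⟩, h3⟩ := h
    refine ⟨i, j, h1, ?_⟩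
    rw [get_sound c i s hs h2, get_sound c j s hs (by omega), h3]
  | node v a b d iha ihb ihd =>
    intro s hs h
    simp only [chk, Bool.and_eq_true] at h
    obtain ⟨⟨h1, h2⟩, h3⟩ := h
    have hv := hc v
    have key : ∀ x, c v = x → ∀ p ∈ (v, x) :: s, c p.1 = p.2 := by
      intro x hx p hp
      rcases List.mem_cons.1 hp with hp | hp
      · rw [hp]; exact hx
      · exact hs p hp
    have h012 : c v = 0 ∨ c v = 1 ∨ c v = 2 := by omega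
    rcases h012 with h0 | h0 | h0
    · exact iha _ (key 0 h0) h1
    · exact ihb _ (key 1 h0) h2
    · exact ihd _ (key 2 h0) h3

def tree : Tr :=
  (.node 0 (.node 3 (.leaf 3 0) (.node 9 (.leaf 9 0) (.leaf 9 3) (.node 4 (.leaf 4 0) (.node 14
  (.leaf 14 0) (.leaf 14 4) (.node 8 (.node 2 (.leaf 2 8) (.node 10 (.leaf 10 8) (.leaf 10 3)
  (.node 13 (.node 15 (.leaf 15 8) (.leaf 15 2) (.node 7 (.leaf 7 0) (.node 12 (.node 5 (.leaf 5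
  12) (.node 6 (.leaf 6 12) (.node 11 (.leaf 11 8) (.leaf 11 6) (.node 16 (.leaf 16 8) (.leaf 16
  7) (.leaf 16 11))) (.leaf 6 10)) (.leaf 5 14)) (.leaf 12 7) (.leaf 12 15)) (.leaf 7 15))) (.leaf
  13 4) (.leaf 13 10))) (.leaf 2 9)) (.leaf 8 3) (.node 10 (.node 13 (.leaf 13 10) (.leaf 13 4)
  (.node 15 (.node 2 (.leaf 2 15) (.node 1 (.node 16 (.leaf 16 1) (.node 7 (.leaf 7 0) (.leaf 7
  16) (.node 11 (.node 12 (.leaf 12 15) (.node 5 (.node 17 (.leaf 17 5) (.leaf 17 12) (.leaf 17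
  13)) (.leaf 5 12) (.leaf 5 14)) (.leaf 12 7)) (.leaf 11 16) (.leaf 11 8))) (.leaf 16 8)) (.leaf
  1 3) (.node 18 (.node 5 (.leaf 5 18) (.node 12 (.leaf 12 15) (.leaf 12 5) (.node 6 (.leaf 6 10)
  (.node 7 (.leaf 7 0) (.node 11 (.node 16 (.leaf 16 11) (.leaf 16 7) (.leaf 16 1)) (.leaf 11 6)
  (.leaf 11 8)) (.leaf 7 12)) (.leaf 6 12))) (.leaf 5 14)) (.leaf 18 2) (.leaf 18 1))) (.leaf 2
  8)) (.leaf 15 4) (.leaf 15 8))) (.leaf 10 3) (.leaf 10 8)))) (.node 1 (.node 14 (.leaf 14 0)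
  (.node 18 (.leaf 18 1) (.node 2 (.node 8 (.leaf 8 2) (.leaf 8 3) (.node 10 (.node 13 (.leaf 13
  10) (.node 15 (.leaf 15 2) (.leaf 15 13) (.leaf 15 4)) (.leaf 13 4)) (.leaf 10 3) (.leaf 10 8)))
  (.leaf 2 18) (.leaf 2 9)) (.leaf 18 4)) (.leaf 14 4)) (.leaf 1 3) (.leaf 1 4)))) (.node 9 (.leaf
  9 0) (.node 4 (.leaf 4 0) (.node 1 (.node 14 (.leaf 14 0) (.leaf 14 4) (.node 18 (.leaf 18 1)
  (.leaf 18 4) (.node 2 (.node 8 (.leaf 8 2) (.node 10 (.node 13 (.leaf 13 10) (.leaf 13 4) (.node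
  15 (.leaf 15 2) (.leaf 15 4) (.leaf 15 13))) (.leaf 10 8) (.leaf 10 3)) (.leaf 8 3)) (.leaf 2 9)
  (.leaf 2 18)))) (.leaf 1 4) (.leaf 1 3)) (.node 14 (.leaf 14 0) (.node 8 (.node 2 (.leaf 2 8)
  (.leaf 2 9) (.node 10 (.leaf 10 8) (.node 13 (.node 15 (.leaf 15 8) (.node 7 (.leaf 7 0) (.leaf
  7 15) (.node 12 (.node 5 (.leaf 5 12) (.leaf 5 14) (.node 6 (.leaf 6 12) (.leaf 6 10) (.node 11
  (.leaf 11 8) (.node 16 (.leaf 16 8) (.leaf 16 11) (.leaf 16 7)) (.leaf 11 6)))) (.leaf 12 15)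
  (.leaf 12 7))) (.leaf 15 2)) (.leaf 13 10) (.leaf 13 4)) (.leaf 10 3))) (.node 10 (.node 13
  (.leaf 13 10) (.node 15 (.node 2 (.leaf 2 15) (.leaf 2 8) (.node 1 (.node 16 (.leaf 16 1) (.leaf
  16 8) (.node 7 (.leaf 7 0) (.node 11 (.node 12 (.leaf 12 15) (.leaf 12 7) (.node 5 (.node 17
  (.leaf 17 5) (.leaf 17 13) (.leaf 17 12)) (.leaf 5 14) (.leaf 5 12))) (.leaf 11 8) (.leaf 11
  16)) (.leaf 7 16))) (.node 18 (.node 5 (.leaf 5 18) (.leaf 5 14) (.node 12 (.leaf 12 15) (.node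
  6 (.leaf 6 10) (.leaf 6 12) (.node 7 (.leaf 7 0) (.leaf 7 12) (.node 11 (.node 16 (.leaf 16 11)
  (.leaf 16 1) (.leaf 16 7)) (.leaf 11 8) (.leaf 11 6)))) (.leaf 12 5))) (.leaf 18 1) (.leaf 18
  2)) (.leaf 1 3))) (.leaf 15 8) (.leaf 15 4)) (.leaf 13 4)) (.leaf 10 8) (.leaf 10 3)) (.leaf 8
  3)) (.leaf 14 4))) (.leaf 9 3))) (.node 3 (.node 9 (.leaf 9 3) (.leaf 9 0) (.node 4 (.node 14
  (.leaf 14 4) (.leaf 14 0) (.node 8 (.leaf 8 3) (.node 2 (.node 10 (.leaf 10 3) (.leaf 10 8)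
  (.node 13 (.leaf 13 4) (.node 15 (.leaf 15 2) (.leaf 15 8) (.node 7 (.node 12 (.leaf 12 7)
  (.node 5 (.node 6 (.node 11 (.leaf 11 6) (.leaf 11 8) (.node 16 (.leaf 16 7) (.leaf 16 8) (.leaf
  16 11))) (.leaf 6 12) (.leaf 6 10)) (.leaf 5 12) (.leaf 5 14)) (.leaf 12 15)) (.leaf 7 0) (.leaf
  7 15))) (.leaf 13 10))) (.leaf 2 8) (.leaf 2 9)) (.node 10 (.leaf 10 3) (.node 13 (.leaf 13 4)
  (.leaf 13 10) (.node 15 (.leaf 15 4) (.node 2 (.node 1 (.leaf 1 3) (.node 16 (.node 7 (.leaf 7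
  16) (.leaf 7 0) (.node 11 (.leaf 11 16) (.node 12 (.node 5 (.leaf 5 12) (.node 17 (.leaf 17 12)
  (.leaf 17 5) (.leaf 17 13)) (.leaf 5 14)) (.leaf 12 15) (.leaf 12 7)) (.leaf 11 8))) (.leaf 16
  1) (.leaf 16 8)) (.node 18 (.leaf 18 2) (.node 5 (.node 12 (.leaf 12 5) (.leaf 12 15) (.node 6
  (.node 7 (.node 11 (.leaf 11 6) (.node 16 (.leaf 16 7) (.leaf 16 11) (.leaf 16 1)) (.leaf 11 8))
  (.leaf 7 0) (.leaf 7 12)) (.leaf 6 10) (.leaf 6 12))) (.leaf 5 18) (.leaf 5 14)) (.leaf 18 1)))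
  (.leaf 2 15) (.leaf 2 8)) (.leaf 15 8))) (.leaf 10 8)))) (.leaf 4 0) (.node 1 (.leaf 1 3) (.node
  14 (.node 18 (.node 2 (.leaf 2 18) (.node 8 (.leaf 8 3) (.leaf 8 2) (.node 10 (.leaf 10 3)
  (.node 13 (.node 15 (.leaf 15 13) (.leaf 15 2) (.leaf 15 4)) (.leaf 13 10) (.leaf 13 4)) (.leaf
  10 8))) (.leaf 2 9)) (.leaf 18 1) (.leaf 18 4)) (.leaf 14 0) (.leaf 14 4)) (.leaf 1 4)))) (.leaf
  3 0) (.node 9 (.node 4 (.node 1 (.leaf 1 4) (.node 14 (.leaf 14 4) (.leaf 14 0) (.node 18 (.leaf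
  18 4) (.leaf 18 1) (.node 2 (.leaf 2 9) (.node 8 (.node 10 (.leaf 10 8) (.node 13 (.leaf 13 4)
  (.leaf 13 10) (.node 15 (.leaf 15 4) (.leaf 15 2) (.leaf 15 13))) (.leaf 10 3)) (.leaf 8 2)
  (.leaf 8 3)) (.leaf 2 18)))) (.leaf 1 3)) (.leaf 4 0) (.node 14 (.node 8 (.node 10 (.leaf 10 8)
  (.node 13 (.node 15 (.leaf 15 8) (.node 2 (.leaf 2 8) (.leaf 2 15) (.node 1 (.node 18 (.leaf 18
  1) (.node 5 (.leaf 5 14) (.leaf 5 18) (.node 12 (.node 6 (.leaf 6 12) (.leaf 6 10) (.node 7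
  (.leaf 7 12) (.leaf 7 0) (.node 11 (.leaf 11 8) (.node 16 (.leaf 16 1) (.leaf 16 11) (.leaf 16
  7)) (.leaf 11 6)))) (.leaf 12 15) (.leaf 12 5))) (.leaf 18 2)) (.node 16 (.leaf 16 8) (.leaf 16
  1) (.node 7 (.node 11 (.leaf 11 8) (.node 12 (.leaf 12 7) (.leaf 12 15) (.node 5 (.leaf 5 14)
  (.node 17 (.leaf 17 13) (.leaf 17 5) (.leaf 17 12)) (.leaf 5 12))) (.leaf 11 16)) (.leaf 7 0)
  (.leaf 7 16))) (.leaf 1 3))) (.leaf 15 4)) (.leaf 13 10) (.leaf 13 4)) (.leaf 10 3)) (.node 2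
  (.leaf 2 9) (.leaf 2 8) (.node 10 (.node 13 (.leaf 13 10) (.node 15 (.node 7 (.leaf 7 15) (.leaf
  7 0) (.node 12 (.leaf 12 15) (.node 5 (.leaf 5 14) (.leaf 5 12) (.node 6 (.leaf 6 10) (.leaf 6
  12) (.node 11 (.node 16 (.leaf 16 11) (.leaf 16 8) (.leaf 16 7)) (.leaf 11 8) (.leaf 11 6))))
  (.leaf 12 7))) (.leaf 15 8) (.leaf 15 2)) (.leaf 13 4)) (.leaf 10 8) (.leaf 10 3))) (.leaf 8 3))
  (.leaf 14 0) (.leaf 14 4))) (.leaf 9 0) (.leaf 9 3))) (.node 3 (.node 9 (.leaf 9 3) (.node 4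
  (.node 14 (.leaf 14 4) (.node 8 (.leaf 8 3) (.node 10 (.leaf 10 3) (.leaf 10 8) (.node 13 (.leaf
  13 4) (.node 15 (.leaf 15 4) (.leaf 15 8) (.node 2 (.node 1 (.leaf 1 3) (.node 18 (.leaf 18 2)
  (.leaf 18 1) (.node 5 (.node 12 (.leaf 12 5) (.node 6 (.node 7 (.node 11 (.leaf 11 6) (.leaf 11
  8) (.node 16 (.leaf 16 7) (.leaf 16 1) (.leaf 16 11))) (.leaf 7 12) (.leaf 7 0)) (.leaf 6 12)
  (.leaf 6 10)) (.leaf 12 15)) (.leaf 5 14) (.leaf 5 18))) (.node 16 (.node 7 (.leaf 7 16) (.node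
  11 (.leaf 11 16) (.leaf 11 8) (.node 12 (.node 5 (.leaf 5 12) (.leaf 5 14) (.node 17 (.leaf 17
  12) (.leaf 17 13) (.leaf 17 5))) (.leaf 12 7) (.leaf 12 15))) (.leaf 7 0)) (.leaf 16 8) (.leaf
  16 1))) (.leaf 2 8) (.leaf 2 15))) (.leaf 13 10))) (.node 2 (.node 10 (.leaf 10 3) (.node 13
  (.leaf 13 4) (.leaf 13 10) (.node 15 (.leaf 15 2) (.node 7 (.node 12 (.leaf 12 7) (.leaf 12 15)
  (.node 5 (.node 6 (.node 11 (.leaf 11 6) (.node 16 (.leaf 16 7) (.leaf 16 11) (.leaf 16 8))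
  (.leaf 11 8)) (.leaf 6 10) (.leaf 6 12)) (.leaf 5 14) (.leaf 5 12))) (.leaf 7 15) (.leaf 7 0))
  (.leaf 15 8))) (.leaf 10 8)) (.leaf 2 9) (.leaf 2 8))) (.leaf 14 0)) (.node 1 (.leaf 1 3) (.leaf
  1 4) (.node 14 (.node 18 (.node 2 (.leaf 2 18) (.leaf 2 9) (.node 8 (.leaf 8 3) (.node 10 (.leaf
  10 3) (.leaf 10 8) (.node 13 (.node 15 (.leaf 15 13) (.leaf 15 4) (.leaf 15 2)) (.leaf 13 4)
  (.leaf 13 10))) (.leaf 8 2))) (.leaf 18 4) (.leaf 18 1)) (.leaf 14 4) (.leaf 14 0))) (.leaf 4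
  0)) (.leaf 9 0)) (.node 9 (.node 4 (.node 1 (.leaf 1 4) (.leaf 1 3) (.node 14 (.leaf 14 4)
  (.node 18 (.leaf 18 4) (.node 2 (.leaf 2 9) (.leaf 2 18) (.node 8 (.node 10 (.leaf 10 8) (.leaf
  10 3) (.node 13 (.leaf 13 4) (.node 15 (.leaf 15 4) (.leaf 15 13) (.leaf 15 2)) (.leaf 13 10)))
  (.leaf 8 3) (.leaf 8 2))) (.leaf 18 1)) (.leaf 14 0))) (.node 14 (.node 8 (.node 10 (.leaf 10 8)
  (.leaf 10 3) (.node 13 (.node 15 (.leaf 15 8) (.leaf 15 4) (.node 2 (.leaf 2 8) (.node 1 (.node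
  18 (.leaf 18 1) (.leaf 18 2) (.node 5 (.leaf 5 14) (.node 12 (.node 6 (.leaf 6 12) (.node 7
  (.leaf 7 12) (.node 11 (.leaf 11 8) (.leaf 11 6) (.node 16 (.leaf 16 1) (.leaf 16 7) (.leaf 16
  11))) (.leaf 7 0)) (.leaf 6 10)) (.leaf 12 5) (.leaf 12 15)) (.leaf 5 18))) (.leaf 1 3) (.node
  16 (.leaf 16 8) (.node 7 (.node 11 (.leaf 11 8) (.leaf 11 16) (.node 12 (.leaf 12 7) (.node 5
  (.leaf 5 14) (.leaf 5 12) (.node 17 (.leaf 17 13) (.leaf 17 12) (.leaf 17 5))) (.leaf 12 15)))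
  (.leaf 7 16) (.leaf 7 0)) (.leaf 16 1))) (.leaf 2 15))) (.leaf 13 4) (.leaf 13 10))) (.leaf 8 3)
  (.node 2 (.leaf 2 9) (.node 10 (.node 13 (.leaf 13 10) (.leaf 13 4) (.node 15 (.node 7 (.leaf 7
  15) (.node 12 (.leaf 12 15) (.leaf 12 7) (.node 5 (.leaf 5 14) (.node 6 (.leaf 6 10) (.node 11
  (.node 16 (.leaf 16 11) (.leaf 16 7) (.leaf 16 8)) (.leaf 11 6) (.leaf 11 8)) (.leaf 6 12))
  (.leaf 5 12))) (.leaf 7 0)) (.leaf 15 2) (.leaf 15 8))) (.leaf 10 3) (.leaf 10 8)) (.leaf 2 8)))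
  (.leaf 14 4) (.leaf 14 0)) (.leaf 4 0)) (.leaf 9 3) (.leaf 9 0)) (.leaf 3 0)))

lemma tree_ok : chk tree [] = true := by
  decide +kernel

theorem no_colouring (c : ℕ → ℕ) (hc : ∀ v, c v < 3) : ∃ i j, E i j = true ∧ c i = c j :=
  chk_sound c hc tree [] (by simp) tree_ok

lemma dot_self : ∀ i < 19, dot (Wf i).1 (Wf i).2 = 1 ∨ dot (Wf i).1 (Wf i).2 = -1 := by
  decide

end Pool.Agent.Q130.SP
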